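import Pool.Agent.H89.MG5

set_option autoImplicit false

namespace Pool.Agent.Results.MP_451483_gt.PathConn

open Cardinal Pool.Agent.H89.MG

universe u

/-- `X` is closed in every Hausdorff group topology on `G`. -/
def UncondClosed {G : Type u} [AddCommGroup G] (X : Set G) : Prop :=
  ∀ τ : TopologicalSpace G, @IsTopologicalAddGroup G τ _ → @T2Space G τ → @IsClosed G τ X

/-- Every proper unconditionally closed subgroup has index at least the continuum. -/
def IsMGroup (G : Type u) [AddCommGroup G] : Prop :=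
  ∀ H : AddSubgroup G, H ≠ ⊤ → UncondClosed (H : Set G) → 𝔠 ≤ #(G ⧸ H)

/-- Locally pathwise connected in the sense of the problem file. -/
def LocPathConn (X : Type u) [TopologicalSpace X] : Prop :=
  ∀ (x : X) (U : Set X), IsOpen U → x ∈ U →
    ∃ V : Set X, IsOpen V ∧ x ∈ V ∧ closure V ⊆ U ∧ IsPathConnected (closure V)

theorem normed (E : Type u) [NormedAddCommGroup E] (h : PP E) :
    PathConnectedSpace E ∧ LocPathConn E := by
  have k : ∀ (x y : E) (S : Set E), y ∈ S → (∀ z, ‖z‖ < ‖y - x‖ ∨ z = 0 → x + z ∈ S) →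
      JoinedIn S x y := fun x y S h1 h2 => by
    obtain ⟨γ, a1, a2, a3, a4⟩ := h (y - x)
    refine JoinedIn.ofLine (f := fun s => x + γ s) (by fun_prop) (by simp [a2]) (by simp [a3]) ?_
    rintro _ ⟨s, hs, rfl⟩
    rcases hs.2.eq_or_lt with rfl | hs
    · simpa [a3] using h1
    · exact h2 _ (a4 s hs)
  refine ⟨pathConnectedSpace_iff_univ.2 ⟨0, trivial, fun y _ => k 0 y _ trivial fun _ _ => trivial⟩,
    fun x U hU hx => ?_⟩
  obtain ⟨ε, hε, h1⟩ := Metric.nhds_basis_closedBall.mem_iff.1 (hU.mem_nhds hx)
  refine ⟨Metric.ball x ε, Metric.isOpen_ball, Metric.mem_ball_self hε,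
    Metric.closure_ball_subset_closedBall.trans h1, x, subset_closure (Metric.mem_ball_self hε),
    fun y hy => k x y _ hy fun z hz => subset_closure ?_⟩
  have := Metric.closure_ball_subset_closedBall hy
  rw [mem_closedBall_iff_norm] at this
  rw [mem_ball_iff_norm, add_sub_cancel_left]
  rcases hz with h | rfl
  · exact h.trans_le this
  · simpa using hε

theorem result (G : Type u) [AddCommGroup G] (h : IsMGroup G) :
    ∃ τ : TopologicalSpace G, @IsTopologicalAddGroup G τ _ ∧ @T2Space G τ ∧
      @PathConnectedSpace G τ ∧ @LocPathConn G τ := by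
  obtain ⟨E, _, j, hE⟩ := nice_of_mc G fun m => by
    by_cases h0 : (nsmulAddMonoidHom (α := G) m).ker = ⊤
    · exact Or.inl fun x => (h0 ▸ AddSubgroup.mem_top x : x ∈ (nsmulAddMonoidHom (α := G) m).ker)
    · refine Or.inr ((h _ h0 fun τ _ _ => isClosed_eq (continuous_nsmul m) continuous_const).trans_eq
        (mk_congr (QuotientAddGroup.quotientKerEquivRange _).toEquiv))
  letI : NormedAddCommGroup G := NormedAddCommGroup.induced G E j j.injective
  have hG : PP G := fun y => by
    obtain ⟨γ, a1, a2, a3, a4⟩ := hE (j y)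
    refine ⟨fun s => j.symm (γ s), continuous_induced_rng.2 (a1.congr fun s => by simp),
      by simp [a2], by simp [a3], fun s hs => (a4 s hs).imp (fun h => ?_) fun h => by simp [h]⟩
    change ‖j (j.symm (γ s))‖ < ‖j y‖
    simpa using h
  exact ⟨inferInstance, inferInstance, inferInstance, normed G hG⟩

end Pool.Agent.Results.MP_451483_gt.PathConn
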